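import Pool.Agent.H30.BV.Targets

/-!
Module QJ of bv_modules: quotients of the levels.
-/

set_option autoImplicit false

open Finset Real ArithmeticFunction
open scoped Nat

namespace Pool.Agent.H55.BV

open Pool.Agent.H30.BV

theorem qj (hLV : T_LV) (hLJ : T_LJ) (hB0 : T_B0) : T_QJ := by
  obtain ⟨L, hL, hLJ⟩ := hLJ
  obtain ⟨b, hb⟩ := hB0 L (Real.exp (-(2 * L))) hL.le (Real.exp_pos _)
  refine ⟨b, fun z p₁ g hz hg => ?_⟩
  obtain ⟨-, hlv, -, -⟩ := hLV z p₁ hz
  refine le_trans (Finset.sum_le_sum fun j _ => ?_) (hb (nl z))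
  set Pj := (PZ z p₁).filter (fun p => lv z p = j) with hPj
  have hz0 : 0 ≤ z := by linarith
  set y := z ^ ((1 / 2 : ℝ) ^ (j + 1)) with hy
  have hy1 : 1 ≤ y := Real.one_le_rpow (by linarith) (by positivity)
  have hy2 : y ^ 2 = z ^ ((1 / 2 : ℝ) ^ j) := by
    rw [hy, ← Real.rpow_natCast, ← Real.rpow_mul hz0]
    congr 1
    push_cast
    ring
  have hsub : Pj ⊆ (Icc 3 ⌊y ^ 2⌋₊).filter (fun p : ℕ => p.Prime ∧ y < (p : ℝ)) := by
    intro p hp
    rw [hPj, mem_filter] at hp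
    obtain ⟨hp1, hp2⟩ := hp
    have h := hlv p hp1
    rw [hp2] at h
    have hp3 := hp1
    unfold PZ at hp3
    rw [mem_filter, mem_Icc] at hp3
    rw [mem_filter, mem_Icc]
    refine ⟨⟨hp3.1.1, Nat.le_floor ?_⟩, hp3.2.1, h.1⟩
    rw [hy2]
    exact h.2
  have hS : ∑ p ∈ Pj, g p ≤ L := by
    calc ∑ p ∈ Pj, g p ≤ ∑ p ∈ Pj, 3 / (p : ℝ) :=
          Finset.sum_le_sum fun p hp => (hg p (mem_of_mem_filter p hp)).2.1
      _ ≤ ∑ p ∈ (Icc 3 ⌊y ^ 2⌋₊).filter (fun p : ℕ => p.Prime ∧ y < (p : ℝ)), 3 / (p : ℝ) :=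
          Finset.sum_le_sum_of_subset_of_nonneg hsub fun p _ _ => by positivity
      _ ≤ L := hLJ y hy1
  have hS0 : 0 ≤ ∑ p ∈ Pj, g p :=
    Finset.sum_nonneg fun p hp => (hg p (mem_of_mem_filter p hp)).1
  have hV : Real.exp (-(2 * L)) ≤ ∏ p ∈ Pj, (1 - g p) := by
    calc Real.exp (-(2 * L)) ≤ Real.exp (∑ p ∈ Pj, (-(2 * g p))) := by
          apply Real.exp_le_exp.mpr
          rw [Finset.sum_neg_distrib, ← Finset.mul_sum]
          linarith
      _ = ∏ p ∈ Pj, Real.exp (-(2 * g p)) := Real.exp_sum _ _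
      _ ≤ ∏ p ∈ Pj, (1 - g p) := by
          apply Finset.prod_le_prod
          · intro p _
            exact (Real.exp_pos _).le
          · intro p hp
            obtain ⟨h0, -, h2⟩ := hg p (mem_of_mem_filter p hp)
            have h1 : 0 < 1 - g p := by linarith
            have h4 := Real.one_sub_inv_le_log_of_pos h1
            have h3 : (1 - g p)⁻¹ ≤ 1 + 2 * g p := by
              rw [inv_eq_one_div, div_le_iff₀ h1]
              nlinarith
            calc Real.exp (-(2 * g p)) ≤ Real.exp (Real.log (1 - g p)) :=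
                  Real.exp_le_exp.mpr (by linarith)
              _ = 1 - g p := Real.exp_log h1
  unfold Pool.Agent.H30.BV.qj
  exact div_le_div₀ (pow_nonneg hL.le _) (pow_le_pow_left₀ hS0 hS _)
    (mul_pos (by positivity) (Real.exp_pos _)) (mul_le_mul_of_nonneg_left hV (by positivity))

end Pool.Agent.H55.BV
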