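import Pool.Agent.H30.BV.Targets

/-!
Module VU of bv_modules: upper bound for the product of dimension two.
-/

set_option autoImplicit false

open Finset Real ArithmeticFunction
open scoped Nat

namespace Pool.Agent.H55.BV

open Pool.Agent.H30.BV
open Pool.Agent.H30.PF (S8 pr)

private lemma gr_nonneg (p : ℕ) : 0 ≤ gr p := by
  unfold gr
  split_ifs <;> positivity

private lemma gr_le_one (p : ℕ) (hp : 3 ≤ p) : gr p ≤ 1 := by
  have h3 : (3 : ℝ) ≤ p := by exact_mod_cast hp
  unfold gr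
  split_ifs
  · rw [div_le_one (by linarith)]
    exact h3
  · rw [div_le_one (by linarith)]
    linarith

private lemma gr_two : gr 2 = 1 / 2 := by
  unfold gr
  rw [if_neg (by unfold S8; omega)]
  norm_num

private lemma gr_eq (p : ℕ) : gr p = 1 / (p : ℝ) + 2 * (if S8 p then 1 / (p : ℝ) else 0) := by
  unfold gr
  split_ifs
  · ring
  · ring

theorem vu (hML : T_ML) (hM9 : T_M9) : T_VU := by
  obtain ⟨C1, hC1⟩ := hML
  obtain ⟨C2, hC2⟩ := hM9
  refine ⟨Real.exp (2 * Real.log 2 + C1 + 2 * C2 + 3 / 2), Real.exp_pos _,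
    fun z p₁ hz hp₁ => ?_⟩
  set N := ⌊z⌋₊ with hN
  have hN3 : 3 ≤ N := Nat.le_floor (by exact_mod_cast hz)
  have hN3' : (3 : ℝ) ≤ N := by exact_mod_cast hN3
  have hNz : z < (N : ℝ) + 1 := Nat.lt_floor_add_one z
  have hlz : 0 < Real.log z := Real.log_pos (by linarith)
  have hlN : 0 < Real.log N := Real.log_pos (by linarith)
  have hlog : Real.log z / 2 ≤ Real.log N := by
    have h1 : z ≤ (N : ℝ) ^ 2 := by nlinarith
    have h2 : Real.log z ≤ Real.log ((N : ℝ) ^ 2) := Real.log_le_log (by linarith) h1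
    rw [Real.log_pow] at h2
    push_cast at h2
    linarith
  have hll : Real.log (Real.log z) - Real.log 2 ≤ Real.log (Real.log N) := by
    rw [← Real.log_div hlz.ne' (by norm_num)]
    exact Real.log_le_log (by positivity) hlog
  -- the sum
  have hsum : 2 * Real.log (Real.log N) - C1 - 2 * C2 ≤
      ∑ p ∈ (Icc 1 N).filter Nat.Prime, gr p := by
    have e : ∑ p ∈ (Icc 1 N).filter Nat.Prime, gr p =
        ∑ q ∈ (Icc 1 N).filter Nat.Prime, (1 : ℝ) / q +
          2 * ∑ q ∈ (Icc 1 N).filter (fun q => q.Prime ∧ S8 q), (1 : ℝ) / q := by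
      rw [Finset.sum_congr rfl fun p _ => gr_eq p, Finset.sum_add_distrib, ← Finset.mul_sum,
        ← Finset.filter_filter, Finset.sum_filter (p := fun q => S8 q)]
    rw [e]
    have h1 := hC1 N hN3
    have h2 := hC2 N hN3
    linarith
  have hsub : (Icc 1 N).filter Nat.Prime ⊆ PZ z p₁ ∪ {2, p₁} := by
    intro p hp
    rw [mem_filter, mem_Icc] at hp
    rw [mem_union, mem_insert, mem_singleton]
    by_cases h2 : p = 2
    · exact Or.inr (Or.inl h2)
    by_cases h3 : p = p₁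
    · exact Or.inr (Or.inr h3)
    left
    unfold PZ
    rw [mem_filter, mem_Icc]
    have := hp.2.two_le
    exact ⟨⟨by omega, hp.1.2⟩, hp.2, h3⟩
  have hle : ∑ p ∈ (Icc 1 N).filter Nat.Prime, gr p ≤ ∑ p ∈ PZ z p₁, gr p + 3 / 2 := by
    have h1 : ∑ p ∈ (Icc 1 N).filter Nat.Prime, gr p ≤ ∑ p ∈ PZ z p₁ ∪ {2, p₁}, gr p :=
      Finset.sum_le_sum_of_subset_of_nonneg hsub fun p _ _ => gr_nonneg p
    have h2 := Finset.sum_union_inter (s₁ := PZ z p₁) (s₂ := {2, p₁}) (f := gr)
    have h3 : 0 ≤ ∑ p ∈ PZ z p₁ ∩ {2, p₁}, gr p := Finset.sum_nonneg fun p _ => gr_nonneg p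
    have h4 : ∑ p ∈ ({2, p₁} : Finset ℕ), gr p = gr 2 + gr p₁ := by
      rw [Finset.sum_pair (by omega)]
    have h5 := gr_le_one p₁ hp₁
    have h6 := gr_two
    linarith
  have hprod : ∏ p ∈ PZ z p₁, (1 - gr p) ≤ Real.exp (-∑ p ∈ PZ z p₁, gr p) := by
    rw [← Finset.sum_neg_distrib, Real.exp_sum]
    apply Finset.prod_le_prod
    · intro p hp
      unfold PZ at hp
      rw [mem_filter, mem_Icc] at hp
      linarith [gr_le_one p hp.1.1]
    · intro p _
      have := Real.add_one_le_exp (-gr p)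
      linarith
  refine hprod.trans ?_
  have hfin : Real.exp (2 * Real.log 2 + C1 + 2 * C2 + 3 / 2) / Real.log z ^ 2 =
      Real.exp (2 * Real.log 2 + C1 + 2 * C2 + 3 / 2 - 2 * Real.log (Real.log z)) := by
    rw [Real.exp_sub]
    congr 1
    rw [two_mul, Real.exp_add, Real.exp_log hlz]
    ring
  rw [hfin]
  apply Real.exp_le_exp.mpr
  linarith

end Pool.Agent.H55.BV
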